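import Pool.Agent.L5helper59.DM.Defs

/-!
# D5: perturbation of the affine substitution at one point
-/

set_option autoImplicit false

open MvPolynomial Filter Topology

namespace Pool.Agent.L5helper59.DM

theorem D5_eval {τ ι : Type} [Fintype ι] (a : τ → ℂ) (b : τ → ι → ℂ) (p : ι → ℂ)
    (Q : MvPolynomial τ ℂ) :
    eval p (sb a b Q) = eval (fun v => a v + ∑ i, b v i * p i) Q := by
  induction Q using MvPolynomial.induction_on with
  | C c => simp [sb, algebraMap_eq]
  | add P Q hP hQ => rw [map_add, map_add, hP, hQ, map_add]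
  | mul_X P n hP =>
    rw [map_mul, map_mul, hP, map_mul, eval_X]
    congr 1
    simp [sb, af]

theorem D5_pderiv {τ ι : Type} [Fintype τ] [DecidableEq τ] [Fintype ι] [DecidableEq ι]
    (a : τ → ℂ) (b : τ → ι → ℂ) (i : ι) (Q : MvPolynomial τ ℂ) :
    pderiv i (sb a b Q) = ∑ v, C (b v i) * sb a b (pderiv v Q) := by
  induction Q using MvPolynomial.induction_on with
  | C c => simp [sb, algebraMap_eq]
  | add P Q hP hQ =>
    rw [map_add, map_add, hP, hQ, ← Finset.sum_add_distrib]
    refine Finset.sum_congr rfl fun v _ => ?_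
    rw [map_add, map_add, mul_add]
  | mul_X P n hP =>
    have hX : sb a b (X n) = af (a n) (b n) := by simp [sb]
    have hd : pderiv i (af (a n) (b n)) = C (b n i) := by
      unfold af
      rw [map_add, pderiv_C, zero_add, map_sum, Finset.sum_eq_single i]
      · rw [pderiv_C_mul, pderiv_X_self, mul_one]
      · intro j _ hj
        rw [pderiv_C_mul, pderiv_X_of_ne hj, mul_zero]
      · simp
    rw [map_mul, hX, Derivation.leibniz, hd, hP, smul_eq_mul, smul_eq_mul]
    have h2 : ∀ v, C (b v i) * sb a b (pderiv v (P * X n)) =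
        af (a n) (b n) * (C (b v i) * sb a b (pderiv v P)) +
          sb a b P * (C (b v i) * sb a b (pderiv v (X n))) := by
      intro v
      rw [Derivation.leibniz, smul_eq_mul, smul_eq_mul, map_add, map_mul, map_mul, hX]
      ring
    rw [Finset.sum_congr rfl fun v _ => h2 v, Finset.sum_add_distrib, ← Finset.mul_sum,
      ← Finset.mul_sum, add_comm]
    congr 1
    congr 1
    rw [Finset.sum_eq_single n]
    · rw [pderiv_X_self, map_one, mul_one]
    · intro v _ hv
      rw [pderiv_X_of_ne (Ne.symm hv), map_zero, mul_zero]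
    · simp

theorem D5_grad {τ ι : Type} [Fintype τ] [DecidableEq τ] [Fintype ι] [DecidableEq ι]
    (a : τ → ℂ) (b : τ → ι → ℂ) (i : ι) (p : ι → ℂ) (Q : MvPolynomial τ ℂ) :
    eval p (pderiv i (sb a b Q)) =
      ∑ v, b v i * eval (fun v => a v + ∑ i, b v i * p i) (pderiv v Q) := by
  rw [D5_pderiv, map_sum]
  refine Finset.sum_congr rfl fun v _ => ?_
  rw [map_mul, eval_C, D5_eval]

theorem D5_kernel {ι κ : Type} [Fintype ι] [Fintype κ] [DecidableEq ι] [DecidableEq κ]
    (hcard : Fintype.card ι = Fintype.card κ + 1) (M : κ → ι → ℂ) :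
    ∃ z : ι → ℂ, z ≠ 0 ∧ ∀ e, ∑ j, z j * M e j = 0 := by
  have h := LinearMap.ker_ne_bot_of_finrank_lt (f := (Matrix.of M).mulVecLin)
    (by rw [Module.finrank_fintype_fun_eq_card, Module.finrank_fintype_fun_eq_card]; omega)
  obtain ⟨z, hz, hz0⟩ := (Submodule.ne_bot_iff _).1 h
  refine ⟨z, hz0, fun e => ?_⟩
  have h2 := congrFun (LinearMap.mem_ker.1 hz) e
  simp only [Matrix.mulVecLin_apply, Matrix.mulVec, dotProduct, Matrix.of_apply, Pi.zero_apply]
    at h2
  rw [← h2]
  exact Finset.sum_congr rfl fun j _ => mul_comm _ _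

/-- D5, with D2 and D4 as hypotheses -/
theorem one_point_of
    (pt_open : ∀ {ι κ : Type} [Fintype ι] [Fintype κ] [DecidableEq ι] [DecidableEq κ]
      (hcard : Fintype.card ι = Fintype.card κ + 1) (F : MvPolynomial ι ℂ)
      (Fk : ℕ → MvPolynomial ι ℂ) (D : ℕ) (hdeg : ∀ k, (Fk k).totalDegree ≤ D)
      (hlim : ∀ d, Tendsto (fun k => coeff d (Fk k)) atTop (𝓝 (coeff d F)))
      (w : κ → ι → ℂ) (p : ι → ℂ) (h : Pt F w p),
      ∀ᶠ k in atTop, eval p (Fk k) = 0 → (∀ e, ∑ i, w e i * eval p (pderiv i (Fk k)) = 0) →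
        Pt (Fk k) w p)
    (sb_tendsto : ∀ {τ ι : Type} [Fintype τ] [Fintype ι] (a : τ → ℂ) (b : τ → ι → ℂ)
      (ak : ℕ → τ → ℂ) (bk : ℕ → τ → ι → ℂ)
      (ha : ∀ v, Tendsto (fun k => ak k v) atTop (𝓝 (a v)))
      (hb : ∀ v i, Tendsto (fun k => bk k v i) atTop (𝓝 (b v i))) (P : MvPolynomial τ ℂ),
      (∀ k, (sb (ak k) (bk k) P).totalDegree ≤ P.totalDegree) ∧
        (∀ d, Tendsto (fun k => coeff d (sb (ak k) (bk k) P)) atTop (𝓝 (coeff d (sb a b P)))) ∧
        ∀ (x : ι → ℂ) (xk : ℕ → ι → ℂ), (∀ i, Tendsto (fun k => xk k i) atTop (𝓝 (x i))) →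
          Tendsto (fun k => eval (xk k) (sb (ak k) (bk k) P)) atTop (𝓝 (eval x (sb a b P))))
    {τ ι κ : Type} [Fintype τ] [DecidableEq τ] [Fintype ι] [Fintype κ]
    [DecidableEq ι] [DecidableEq κ] (hcard : Fintype.card ι = Fintype.card κ + 1)
    (P q : MvPolynomial τ ℂ)
    (hd : ∀ y : τ → ℂ, eval y P = 0 → ∀ v, eval y (pderiv v P) ≠ 0 → ∀ ε : ℝ, 0 < ε →
      ∃ y' : τ → ℂ, (∀ i, ‖y' i - y i‖ ≤ ε) ∧ eval y' P = 0 ∧ eval y' q ≠ 0)
    (a : τ → ℂ) (b : τ → ι → ℂ) (w : κ → ι → ℂ) (p : ι → ℂ) (h : Pt (sb a b P) w p) :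
    ∃ (ak : ℕ → τ → ℂ) (bk : ℕ → τ → ι → ℂ), (∀ v, Tendsto (fun k => ak k v) atTop (𝓝 (a v))) ∧
      (∀ v i, Tendsto (fun k => bk k v i) atTop (𝓝 (b v i))) ∧
      ∀ᶠ k in atTop, Pt (sb (ak k) (bk k) P) w p ∧ eval p (sb (ak k) (bk k) q) ≠ 0 := by
  set y : τ → ℂ := fun v => a v + ∑ i, b v i * p i with hy
  have h1 : eval y P = 0 := by rw [← h.1, D5_eval]
  -- a direction in which the gradient of `P` at `y` is not zero
  have hv : ∃ v0, eval y (pderiv v0 P) ≠ 0 := by
    by_contra hcon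
    push Not at hcon
    have hG : ∀ i, eval p (pderiv i (sb a b P)) = 0 := by
      intro i
      rw [D5_grad]
      refine Finset.sum_eq_zero fun v _ => ?_
      rw [show eval (fun v => a v + ∑ i, b v i * p i) (pderiv v P) = 0 from hcon v, mul_zero]
    obtain ⟨z, hz0, hz⟩ := D5_kernel hcard
      (fun e j => ∑ i, w e i * eval p (pderiv j (pderiv i (sb a b P))))
    refine hz0 (h.2.2 z ?_ fun e => ?_)
    · refine Finset.sum_eq_zero fun i _ => ?_
      rw [hG, mul_zero]
    · rw [← hz e, Finset.sum_comm]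
      refine Finset.sum_congr rfl fun j _ => ?_
      rw [Finset.mul_sum]
      refine Finset.sum_congr rfl fun i _ => ?_
      ring
  obtain ⟨v0, hv0⟩ := hv
  choose yk hyk1 hyk2 hyk3 using fun k : ℕ => hd y h1 v0 hv0 (1 / ((k : ℝ) + 1)) (by positivity)
  have hyt : ∀ v, Tendsto (fun k => yk k v) atTop (𝓝 (y v)) := by
    intro v
    rw [tendsto_iff_norm_sub_tendsto_zero]
    refine squeeze_zero (fun k => norm_nonneg _) (fun k => hyk1 k v) ?_
    exact tendsto_one_div_add_atTop_nhds_zero_nat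
  have hgt : ∀ v, Tendsto (fun k => eval (yk k) (pderiv v P)) atTop (𝓝 (eval y (pderiv v P))) := by
    intro v
    exact ((MvPolynomial.continuous_eval (pderiv v P)).tendsto y).comp (tendsto_pi_nhds.2 hyt)
  set g : τ → ℂ := fun v => eval y (pderiv v P) with hg
  set gk : ℕ → τ → ℂ := fun k v => eval (yk k) (pderiv v P) with hgk
  set bk : ℕ → τ → ι → ℂ := fun k v i =>
    b v i + if v = v0 then (∑ u, b u i * (g u - gk k u)) / gk k v0 else 0 with hbk
  set ak : ℕ → τ → ℂ := fun k v => yk k v - ∑ i, bk k v i * p i with hak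
  have hbt : ∀ v i, Tendsto (fun k => bk k v i) atTop (𝓝 (b v i)) := by
    intro v i
    have hs : Tendsto (fun k => (∑ u, b u i * (g u - gk k u)) / gk k v0) atTop (𝓝 0) := by
      have hn : Tendsto (fun k => ∑ u, b u i * (g u - gk k u)) atTop (𝓝 0) := by
        have : Tendsto (fun k => ∑ u, b u i * (g u - gk k u)) atTop
            (𝓝 (∑ u, b u i * (g u - g u))) :=
          tendsto_finsetSum _ fun u _ => (tendsto_const_nhds.sub (hgt u)).const_mul _
        simpa using this
      have h4 := hn.div (hgt v0) hv0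
      rw [zero_div] at h4
      exact h4
    by_cases hv : v = v0
    · simp only [hbk, hv, if_true]
      simpa using tendsto_const_nhds.add hs
    · simp only [hbk, hv, if_false, add_zero]
      exact tendsto_const_nhds
  have hat : ∀ v, Tendsto (fun k => ak k v) atTop (𝓝 (a v)) := by
    intro v
    have h2 : Tendsto (fun k => yk k v - ∑ i, bk k v i * p i) atTop
        (𝓝 (y v - ∑ i, b v i * p i)) :=
      (hyt v).sub (tendsto_finsetSum _ fun i _ => (hbt v i).mul_const _)
    have h3 : y v - ∑ i, b v i * p i = a v := by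
      simp only [hy]
      ring
    rw [h3] at h2
    exact h2
  obtain ⟨hs1, hs2, -⟩ := sb_tendsto a b ak bk hat hbt P
  have hopen := pt_open hcard (sb a b P) (fun k => sb (ak k) (bk k) P) P.totalDegree hs1 hs2 w p h
  have hne : ∀ᶠ k in atTop, gk k v0 ≠ 0 := (hgt v0).eventually_ne hv0
  refine ⟨ak, bk, hat, hbt, ?_⟩
  filter_upwards [hopen, hne] with k hk1 hk2
  have hyy : (fun v => ak k v + ∑ i, bk k v i * p i) = yk k := by
    funext v
    simp only [hak]
    ring
  have hgr : ∀ i, eval p (pderiv i (sb (ak k) (bk k) P)) = eval p (pderiv i (sb a b P)) := by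
    intro i
    rw [D5_grad, D5_grad, hyy]
    have e1 : ∀ v, bk k v i * eval (yk k) (pderiv v P) = b v i * gk k v +
        (if v = v0 then ∑ u, b u i * (g u - gk k u) else 0) := by
      intro v
      by_cases hv : v = v0
      · subst hv
        simp only [hbk, if_true]
        rw [add_mul, div_mul_cancel₀ _ hk2]
      · simp only [hbk, hv, if_false, add_zero]
        rfl
    rw [Finset.sum_congr rfl fun v _ => e1 v, Finset.sum_add_distrib, Finset.sum_ite_eq']
    simp only [Finset.mem_univ, if_true]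
    rw [← Finset.sum_add_distrib]
    refine Finset.sum_congr rfl fun v _ => ?_
    simp only [hg]
    ring
  refine ⟨hk1 ?_ fun e => ?_, ?_⟩
  · rw [D5_eval, hyy]
    exact hyk2 k
  · simp only [hgr]
    exact h.2.1 e
  · rw [D5_eval, hyy]
    exact hyk3 k

end Pool.Agent.L5helper59.DM
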